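import Pool.Agent.H41.AL.Defs2

set_option autoImplicit false

/-! # AG-FIN2 (for helper41): the assembly of the correspondence packing theorem -/

namespace Pool.Agent.H634.AG

open Equiv Pool.Agent.H41.AL

theorem fin2_card {n : ℕ} (B : Fin n → Fin n → Prop) [∀ a b, Decidable (B a b)]
    (S T : Finset (Fin n)) :
    {p : Fin n × Fin n | p.1 ∈ S ∧ p.2 ∈ T ∧ B p.1 p.2}.ncard =
      ((S ×ˢ T).filter fun p => B p.1 p.2).card := by
  rw [← Set.ncard_coe_finset]
  congr 1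
  ext p
  simp only [Set.mem_ofPred_eq, Finset.coe_filter, Finset.mem_product]
  tauto

theorem fin2 (hcut : S_CUT2) (hfac : S_FACTOR) (hrun : S_RUN2) (hpart : S_GPART)
    (hparm : S_PARM2) : S_FIN2 := by
  intro ε hε
  obtain ⟨Am, η', ε', hAm, hη'0, hη'1, hε'0, hε'1, hparm⟩ :=
    hparm (min ε 1) (lt_min hε one_pos) (min_le_right _ _)
  obtain ⟨η, β, κ, hη0, hη1, hβ0, hβ1, hκ0, n₀, hcut⟩ := hcut η' Am hη'0 hη'1 hAm
  obtain ⟨D₁, hparm⟩ := hparm η β κ hη0 hη1 hβ0 hβ1 hκ0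
  obtain ⟨D₂, hpart⟩ := hpart ε' hε'0 hε'1
  refine ⟨max (max D₁ D₂) (max n₀ 1), ?_⟩
  intro D hD V _ _ G _ n hdeg hn1 hn2 σ hσ
  have hD1 : D₁ ≤ D := (le_max_left _ _).trans ((le_max_left _ _).trans hD)
  have hD2 : D₂ ≤ D := (le_max_right _ _).trans ((le_max_left _ _).trans hD)
  have hD3 : n₀ ≤ D := (le_max_left _ _).trans ((le_max_right _ _).trans hD)
  have hD4 : 1 ≤ D := (le_max_right _ _).trans ((le_max_right _ _).trans hD)
  have hDr : (0 : ℝ) ≤ (D : ℝ) := Nat.cast_nonneg _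
  have hn1' : (1 + min ε 1) * (D : ℝ) ≤ n :=
    (mul_le_mul_of_nonneg_right (by linarith [min_le_left ε 1]) hDr).trans hn1
  have hDn : D ≤ n := by
    have h1 : (D : ℝ) ≤ n := by
      refine le_trans ?_ hn1
      nlinarith
    exact_mod_cast h1
  obtain ⟨K, d, m, b, τ, L, A, hK1, hK2, hd, hA0, hA, hL, hη, hτ0, hτ1, hτ2, hKτ, hmD, hβb, hbm,
    hdn⟩ := hparm D hD1 n hn1' hn2
  obtain ⟨ρ, hρ⟩ := hpart D hD2 K hK1 hK2 V G hdeg
  refine hrun V G n K D d m b ρ σ L A Am τ η hσ hD4 hdeg (fun v i => ?_) hA0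
    (fun i hi => (hL i hi).1) (fun i hi => (hL i hi).2.2.1) (fun i hi => (hA i hi).2) hτ0 hτ1 hτ2
    (fun i hi => (hL i hi).2.2.2) hKτ ?_
  · have h1 := (hρ v i).trans hd
    exact_mod_cast h1
  · intro i hi W B hW hWB hrow hcol
    classical
    have hAi := hA i hi.le
    have hAi0 : (0 : ℝ) < A i := lt_of_lt_of_le one_pos hAi.1
    have hrow' : ∀ j, (1 - η) * n / A i ≤ ({c | B j c}.ncard : ℝ) := by
      intro j
      refine (hη i hi.le).trans ?_
      have h1 : (n : ℝ) ≤ ({c | B j c}.ncard : ℝ) + i * d := by exact_mod_cast hrow j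
      linarith
    have hcol' : ∀ c, (1 - η) * n / A i ≤ ({j | B j c}.ncard : ℝ) := by
      intro c
      refine (hη i hi.le).trans ?_
      have h1 : (n : ℝ) ≤ ({j | B j c}.ncard : ℝ) + i * d := by exact_mod_cast hcol c
      linarith
    have hWB' : ({p : Fin n × Fin n | W p.1 p.2 ≠ 0 ∧ ¬ B p.1 p.2}.ncard : ℝ) ≤
        η * (n : ℝ) ^ 2 := by
      refine le_trans ?_ hmD
      exact_mod_cast hWB
    obtain ⟨hc1, hc2⟩ := hcut n (hD3.trans hDn) W (A i) hAi.1 hAi.2 hW B hWB' hrow' hcol'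
    have hlow : (2 * b + m + d : ℝ) ≤ (1 - η) * n / A i := by
      refine hbm.trans ?_
      have h0 : (0 : ℝ) ≤ (1 - η) * n := mul_nonneg (by linarith) (Nat.cast_nonneg _)
      exact div_le_div_of_nonneg_left h0 hAi0 hAi.2
    refine ⟨?_, ?_, ?_, ?_⟩
    · refine hfac n (L i) B fun S T => ?_
      have h1 := hc1 (L i) (hL i hi).2.1 S T
      rw [fin2_card B S T] at h1
      exact h1
    · intro S T hS hT
      have hb1 : β * n ≤ (S.card : ℝ) := hβb.trans (by exact_mod_cast hS)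
      have hb2 : β * n ≤ (T.card : ℝ) := hβb.trans (by exact_mod_cast hT)
      have h1 := hc2 S T hb1 hb2
      have h2 : (S.card : ℝ) ≤ n := by
        have := S.card_le_univ
        rw [Fintype.card_fin] at this
        exact_mod_cast this
      have h3 : ((d * S.card : ℕ) : ℝ) <
          ({p : Fin n × Fin n | p.1 ∈ S ∧ p.2 ∈ T ∧ B p.1 p.2}.ncard : ℝ) := by
        push_cast
        calc (d : ℝ) * S.card ≤ d * n := mul_le_mul_of_nonneg_left h2 (Nat.cast_nonneg _)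
          _ < κ * (n : ℝ) ^ 2 := hdn
          _ ≤ _ := h1
      exact_mod_cast h3
    · intro j
      have h1 := hlow.trans (hrow' j)
      exact_mod_cast h1
    · intro c
      have h1 := hlow.trans (hcol' c)
      exact_mod_cast h1

end Pool.Agent.H634.AG
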